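import Pool.Agent.PSS.StmtsS1d

/-!
Squad PSS, block S1, row FSR (helper32): dual families of the deformation.
-/

set_option autoImplicit false

open scoped BigOperators TensorProduct

noncomputable section

namespace Pool.Agent.PSS.H32

open Pool.Agent.PFD.D2 (Cdv FibG)
open Pool.Agent.PFD.D2b (FrR)
open Finset
open Pool.Agent.PSS
open Pool.Agent.PSS.Dm (cst)

theorem unitX {k : Type} [CommRing k] (r : PowerSeries k) : IsUnit (1 + PowerSeries.X * r) := by
  rw [PowerSeries.isUnit_iff_constantCoeff]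
  simp

theorem regX {k : Type} [CommRing k] (r : PowerSeries k) (hr : PowerSeries.X * r = 0) : r = 0 := by
  ext n
  have h := congrArg (PowerSeries.coeff (n + 1)) hr
  rw [PowerSeries.coeff_succ_X_mul] at h
  rw [h]
  simp

theorem redX (k : Type) [CommRing k] :
    Red (PowerSeries.X : PowerSeries k) (PowerSeries.constantCoeff (R := k)) := by
  refine ⟨fun r => ⟨PowerSeries.C r, PowerSeries.constantCoeff_C r⟩, fun r => ?_⟩
  rw [← PowerSeries.X_dvd_iff]
  rfl

theorem fsr (rfm : RfmStmt) (spf : SpfStmt) (fre : FreStmt) : FsrStmt := by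
  intro k W A K _ _ _ _ _ _ _ _ om D lam x y Λ hrf hsym hc
  obtain ⟨π₀, h1, h2, h3, h4, h5⟩ := spf k W A om D
  obtain ⟨hfin, hfree⟩ := fre k W A om D
  have hsq : ∀ a, π₀ a = D.sq a 0 := by
    intro a
    have h := h1 (D.sq a)
    rwa [D.of_sq] at h
  have h6 : ∀ a, PowerSeries.constantCoeff (Λ a) = lam (π₀ a) := by
    intro a
    rw [hsq, ← hc (D.sq a), D.of_sq]
  have h7 : ∀ t, π₀ (D.of (cst (x t))) = x t := by
    intro t
    rw [h1]
    rfl
  obtain ⟨y', hy1, hy2⟩ := rfm (PowerSeries k) k W A D.R K PowerSeries.X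
    (PowerSeries.constantCoeff (R := k)) om D.w π₀ lam Λ x y (fun t => D.of (cst (x t)))
    unitX regX (redX k) h2 h3 h5 h4 h6 hsym hrf h7
  exact ⟨y', hy1, fun t => by rw [← hsq]; exact hy2 t⟩

end Pool.Agent.PSS.H32
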