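import Pool.Agent.Helper32_PSS.CrrA

/-!
Squad PSS, block S1, row CRR (helper32), part B: the isomorphism with the trivial deformation.
-/

set_option autoImplicit false

open scoped BigOperators TensorProduct

noncomputable section

namespace Pool.Agent.PSS.H32

open Pool.Agent.PFD.D2 (Cdv FibG)
open Pool.Agent.PFD.D2b (FrR)
open Finset
open Pool.Agent.PSS
open Pool.Agent.PSS.Dm (cst)

section iso

variable {K B W : Type} [CommRing K] [Ring B] [Algebra K B] [Group W] {om : W →* B} (D : Dm K om)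
  (P : ℕ → (B →ₗ[K] B))

/-- the power series of the trivialisation -/
def Ps : PowerSeries (Module.End K B) := PowerSeries.mk P

theorem Ps_coeff (n : ℕ) (x : B) : (PowerSeries.coeff n (Ps P)) x = P n x := by
  rw [Ps, PowerSeries.coeff_mk]

theorem act_Ps (f : ℕ → B) (n : ℕ) : act (Ps P) f n = ∑ p ∈ antidiagonal n, P p.1 (f p.2) := by
  rw [act]
  exact Finset.sum_congr rfl fun p _ => Ps_coeff P _ _

theorem exInv (h0 : P 0 = LinearMap.id) : ∃ Q : PowerSeries (Module.End K B),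
    Ps P * Q = 1 ∧ Q * Ps P = 1 := by
  have h : PowerSeries.constantCoeff (Ps P) = ((1 : (Module.End K B)ˣ) : Module.End K B) := by
    rw [← PowerSeries.coeff_zero_eq_constantCoeff_apply, Ps, PowerSeries.coeff_mk, h0]
    rfl
  exact ⟨PowerSeries.invOfUnit (Ps P) 1, PowerSeries.mul_invOfUnit _ _ h,
    PowerSeries.invOfUnit_mul _ _ h⟩

theorem conj (hpm : ∀ n x y, ∑ p ∈ antidiagonal n, P p.1 x * P p.2 y =
    ∑ p ∈ antidiagonal n, P p.1 (D.m p.2 x y)) (f : ℕ → B) :
    (triv K om).lft (act (Ps P) f) * Ps P = Ps P * D.lft f := by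
  ext n x
  rw [PowerSeries.coeff_mul, PowerSeries.coeff_mul, LinearMap.sum_apply, LinearMap.sum_apply]
  have h1 : ∀ p : ℕ × ℕ, ((PowerSeries.coeff p.1) ((triv K om).lft (act (Ps P) f)) *
      (PowerSeries.coeff p.2) (Ps P)) x =
      ∑ q ∈ antidiagonal p.1, P q.1 (f q.2) * P p.2 x := by
    intro p
    rw [Module.End.mul_apply, triv_lft, Ps_coeff, act_Ps, Finset.sum_mul]
  have h2 : ∀ p : ℕ × ℕ, ((PowerSeries.coeff p.1) (Ps P) *
      (PowerSeries.coeff p.2) (D.lft f)) x =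
      ∑ q ∈ antidiagonal p.2, P p.1 (D.m q.1 (f q.2) x) := by
    intro p
    rw [Module.End.mul_apply, Ps_coeff, D.lft_apply, map_sum]
  rw [Finset.sum_congr rfl fun p _ => h1 p, Finset.sum_congr rfl fun p _ => h2 p,
    ad_a n (fun i j l => P i (f j) * P l x), ad_b n (fun i l j => P i (D.m l (f j) x))]
  refine Finset.sum_congr rfl fun p _ => ?_
  exact hpm p.2 (f p.1) x

/-- the map `Φ` -/
def Phi (x : D.R) : (triv K om).R := (triv K om).of (act (Ps P) (D.sq x))

theorem Phi_of (f : ℕ → B) : Phi D P (D.of f) = (triv K om).of (act (Ps P) f) := by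
  rw [Phi, D.sq_of]

variable {P}

theorem Phi_conj (hpm : ∀ n x y, ∑ p ∈ antidiagonal n, P p.1 x * P p.2 y =
    ∑ p ∈ antidiagonal n, P p.1 (D.m p.2 x y)) (x : D.R) :
    (Phi D P x).1 * Ps P = Ps P * x.1 := by
  have h := conj D P hpm (D.sq x)
  have h2 : x.1 = D.lft (D.sq x) := by
    have h3 := congrArg Subtype.val (D.of_sq x)
    exact h3.symm
  rw [h2]
  exact h

theorem Phi_uniq (h0 : P 0 = LinearMap.id)
    (hpm : ∀ n x y, ∑ p ∈ antidiagonal n, P p.1 x * P p.2 y =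
    ∑ p ∈ antidiagonal n, P p.1 (D.m p.2 x y)) (x : D.R) (t : (triv K om).R)
    (h : t.1 * Ps P = Ps P * x.1) : Phi D P x = t := by
  obtain ⟨Q, hQ, -⟩ := exInv P h0
  have h1 := (Phi_conj D hpm x).trans h.symm
  have h2 : (Phi D P x).1 * Ps P * Q = t.1 * Ps P * Q := by rw [h1]
  rw [mul_assoc, mul_assoc, hQ, mul_one, mul_one] at h2
  exact Subtype.ext h2

theorem exPhi (h0 : P 0 = LinearMap.id)
    (hpm : ∀ n x y, ∑ p ∈ antidiagonal n, P p.1 x * P p.2 y =
    ∑ p ∈ antidiagonal n, P p.1 (D.m p.2 x y)) :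
    ∃ Φ : D.R ≃ₗ[PowerSeries K] (triv K om).R, (∀ a b, Φ (a * b) = Φ a * Φ b) ∧
      ∀ f, Φ (D.of f) = (triv K om).of (act (Ps P) f) := by
  obtain ⟨Q, hQ1, hQ2⟩ := exInv P h0
  have hadd : ∀ a b, Phi D P (a + b) = Phi D P a + Phi D P b := by
    intro a b
    apply Phi_uniq D h0 hpm
    show ((Phi D P a).1 + (Phi D P b).1) * Ps P = Ps P * (a.1 + b.1)
    rw [add_mul, mul_add, Phi_conj D hpm, Phi_conj D hpm]
  have hmul : ∀ a b, Phi D P (a * b) = Phi D P a * Phi D P b := by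
    intro a b
    apply Phi_uniq D h0 hpm
    show ((Phi D P a).1 * (Phi D P b).1) * Ps P = Ps P * (a.1 * b.1)
    rw [mul_assoc, Phi_conj D hpm, ← mul_assoc, Phi_conj D hpm, mul_assoc]
  have hsmul : ∀ (c : PowerSeries K) a, Phi D P (c • a) = c • Phi D P a := by
    intro c a
    apply Phi_uniq D h0 hpm
    rw [Algebra.smul_def, Algebra.smul_def]
    show (Dm.scl K B c * (Phi D P a).1) * Ps P = Ps P * (Dm.scl K B c * a.1)
    rw [mul_assoc, Phi_conj D hpm, ← mul_assoc, ← mul_assoc, Dm.scl_comm]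
  let Φ₀ : D.R →ₗ[PowerSeries K] (triv K om).R :=
    { toFun := Phi D P, map_add' := hadd, map_smul' := hsmul }
  have hΦ₀ : ∀ a, Φ₀ a = Phi D P a := fun _ => rfl
  have hinj : Function.Injective Φ₀ := by
    intro a b hab
    rw [hΦ₀, hΦ₀] at hab
    have h1 : Ps P * a.1 = Ps P * b.1 := by
      rw [← Phi_conj D hpm, ← Phi_conj D hpm, hab]
    have h2 : Q * (Ps P * a.1) = Q * (Ps P * b.1) := by rw [h1]
    rw [← mul_assoc, ← mul_assoc, hQ2, one_mul, one_mul] at h2
    exact Subtype.ext h2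
  have hsur : Function.Surjective Φ₀ := by
    intro t
    refine ⟨D.of (act Q ((triv K om).sq t)), ?_⟩
    rw [hΦ₀, Phi_of, act_act, hQ1, act_one, Dm.of_sq]
  refine ⟨LinearEquiv.ofBijective Φ₀ ⟨hinj, hsur⟩, ?_, ?_⟩
  · intro a b
    rw [LinearEquiv.ofBijective_apply, LinearEquiv.ofBijective_apply,
      LinearEquiv.ofBijective_apply]
    exact hmul a b
  · intro f
    rw [LinearEquiv.ofBijective_apply]
    exact Phi_of D P f

end iso

end Pool.Agent.PSS.H32
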