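import Pool.Agent.Helper32_PSS.CrrB

/-!
Squad PSS, block S1, row CRR (helper32): the trace formula over `K`.
-/

set_option autoImplicit false

open scoped BigOperators TensorProduct

noncomputable section

namespace Pool.Agent.PSS.H32

open Pool.Agent.PFD.D2 (Cdv FibG)
open Pool.Agent.PFD.D2b (FrR)
open Finset
open Pool.Agent.PSS
open Pool.Agent.PSS.Dm (cst)

theorem crr (hfun : FunStmt) (rfe : RfeStmt) (rtc : RtcStmt) (rwv : RwvStmt) : CrrStmt := by
  classical
  intro K V E B κ κ' _ _ _ _ _ _ _ _ _ _ φ W _ z β lamK x y P m D Λ x' y' hVz hT hDm hrf hRF hc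
  subst hDm
  have hpm := hT.pm
  have h0 := hT.p0
  obtain ⟨Φ, hmul, hof⟩ := exPhi D h0 hpm
  let T : Dm K (aw β W) := triv K (aw β W)
  have htm : ∀ f g, T.of f * T.of g = T.of (fun n => ∑ q ∈ antidiagonal n, f q.1 * g q.2) :=
    triv_of_mul (aw β W)
  have htc : ∀ a g, T.of (cst a) * T.of g = T.of (fun n => a * g n) := triv_cst_mul (aw β W)
  have htd : ∀ a g, T.of g * T.of (cst a) = T.of (fun n => g n * a) := triv_mul_cst (aw β W)
  -- the group
  have hw : ∀ w : W, Φ (D.w w) = T.w w := by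
    intro w
    show Φ (D.of (cst (aw β W w))) = T.of (cst (aw β W w))
    rw [hof]
    congr 1
    funext n
    rw [act_Ps, Finset.sum_eq_single (n, 0)]
    · show P n (cst (aw β W w) 0) = cst (aw β W w) n
      rcases n with _ | n
      · rw [h0]
        rfl
      · have h1 := (hT.pw (n + 1) w.1 w.2 1).1
        rw [mul_one, hT.p1, mul_zero] at h1
        exact h1
    · rintro ⟨b, c⟩ h hne
      rcases c with _ | c
      · rw [Finset.HasAntidiagonal.mem_antidiagonal] at h
        simp only [add_zero] at h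
        exact absurd (by rw [h]) hne
      · simp [cst]
    · intro h
      exact absurd (by rw [Finset.HasAntidiagonal.mem_antidiagonal]; simp) h
  -- the inverse is multiplicative
  have hsymm : ∀ a b, Φ.symm (a * b) = Φ.symm a * Φ.symm b := by
    intro a b
    apply Φ.injective
    rw [hmul, LinearEquiv.apply_symm_apply, LinearEquiv.apply_symm_apply,
      LinearEquiv.apply_symm_apply]
  -- the forms
  let Λ₁ : T.R →ₗ[PowerSeries K] PowerSeries K := Λ.comp Φ.symm.toLinearMap
  have hΛ₁ : ∀ a, Λ₁ (Φ a) = Λ a := by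
    intro a
    show Λ (Φ.symm (Φ a)) = Λ a
    rw [LinearEquiv.symm_apply_apply]
  have hs1 : ∀ a b, Λ₁ (a * b) = Λ₁ (b * a) := by
    intro a b
    show Λ (Φ.symm (a * b)) = Λ (Φ.symm (b * a))
    rw [hsymm, hsymm, hRF.sym]
  obtain ⟨Λ₀, hΛ₀'⟩ := (hfun K W B (aw β W) T).1 (fun n => if n = 0 then lamK else 0)
  have hΛ₀ : ∀ f n, PowerSeries.coeff n (Λ₀ (T.of f)) = lamK (f n) := by
    intro f n
    rw [hΛ₀', Finset.sum_eq_single (0, n)]
    · rfl
    · rintro ⟨b, c⟩ h hne
      rcases b with _ | b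
      · rw [Finset.HasAntidiagonal.mem_antidiagonal] at h
        simp only [zero_add] at h
        exact absurd (by rw [h]) hne
      · rw [if_neg (Nat.succ_ne_zero b)]
        rfl
    · intro h
      exact absurd (by rw [Finset.HasAntidiagonal.mem_antidiagonal]; simp) h
  have hs0 : ∀ a b, Λ₀ (a * b) = Λ₀ (b * a) := by
    intro a b
    rw [← T.of_sq a, ← T.of_sq b, htm, htm]
    ext n
    rw [hΛ₀, hΛ₀, map_sum, map_sum,
      ← Finset.Nat.sum_antidiagonal_swap (f := fun p : ℕ × ℕ =>
        lamK (T.sq b p.1 * T.sq a p.2))]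
    exact Finset.sum_congr rfl fun p _ => hrf.sym _ _
  -- the constant dual families
  have hRFW := rwv K V E B κ φ W z β lamK x y hVz hrf
  obtain ⟨X, hX⟩ : ∃ X : κ × Fin (orderOf z) → B, X = fun p => x p.1 * β (z ^ (p.2 : ℕ)) :=
    ⟨_, rfl⟩
  obtain ⟨Y, hY⟩ : ∃ Y : κ × Fin (orderOf z) → B, Y = fun p => β (z ^ (p.2 : ℕ))⁻¹ * y p.1 :=
    ⟨_, rfl⟩
  rw [← hX, ← hY] at hRFW
  have hTw : ∀ w : W, T.w w = T.of (cst (aw β W w)) := fun _ => rfl
  have he1 : ∀ a, ∑ k, ∑ w, Λ₀ (T.w w⁻¹ * T.of (cst (Y k)) * a) • (T.of (cst (X k)) * T.w w) =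
      a := by
    intro a
    have h1 : ∀ k w, Λ₀ (T.w w⁻¹ * T.of (cst (Y k)) * a) • (T.of (cst (X k)) * T.w w) =
        T.of (fun n => lamK (aw β W w⁻¹ * Y k * T.sq a n) • (X k * aw β W w)) := by
      intro k w
      have h2 : T.of (cst (X k)) * T.w w = T.of (cst (X k * aw β W w)) := by
        rw [hTw, htd]
        congr 1
        funext n
        rw [cst, cst]
        split_ifs
        · rfl
        · rw [zero_mul]
      have h3 : T.w w⁻¹ * T.of (cst (Y k)) * a =
          T.of (fun n => aw β W w⁻¹ * Y k * T.sq a n) := by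
        rw [mul_assoc]
        conv_lhs => rw [← T.of_sq a]
        rw [htc, hTw, htc]
        congr 1
        funext n
        rw [mul_assoc]
      rw [h2, h3, smul_cst]
      congr 1
      funext n
      rw [hΛ₀]
    rw [Finset.sum_congr rfl fun k _ => Finset.sum_congr rfl fun w _ => h1 k w]
    rw [Finset.sum_congr rfl fun k _ => (of_sum T Finset.univ _).symm, ← of_sum T Finset.univ]
    have h4 : (fun n => ∑ k, ∑ w, lamK (aw β W w⁻¹ * Y k * T.sq a n) • (X k * aw β W w)) =
        T.sq a := by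
      funext n
      exact hRFW.e1 (T.sq a n)
    rw [h4, T.of_sq]
  obtain ⟨hRF0, hnd0, hperf0⟩ := rfe (PowerSeries K) W T.R (κ × Fin (orderOf z)) T.w Λ₀
    (fun k => T.of (cst (X k))) (fun k => T.of (cst (Y k))) hs0 he1
  obtain ⟨N, hN⟩ := hperf0 Λ₁
  -- `N` is central
  have hNc : ∀ a, N * a = a * N := by
    intro a
    rw [← sub_eq_zero]
    apply hnd0
    intro b
    rw [sub_mul, map_sub, sub_eq_zero]
    calc Λ₀ (N * a * b) = Λ₁ (a * b) := by rw [hN, mul_assoc]
      _ = Λ₁ (b * a) := hs1 a b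
      _ = Λ₀ (N * (b * a)) := hN _
      _ = Λ₀ ((b * a) * N) := hs0 _ _
      _ = Λ₀ (b * (a * N)) := by rw [mul_assoc]
      _ = Λ₀ (a * N * b) := hs0 _ _
  -- dual families of `Λ₁`
  have he1' : ∀ a, ∑ k, ∑ w, Λ₁ (T.w w⁻¹ * Φ (y' k) * a) • (Φ (x' k) * T.w w) = a := by
    intro a
    have h1 := congrArg Φ (hRF.e1 (Φ.symm a))
    rw [LinearEquiv.apply_symm_apply, map_sum] at h1
    refine Eq.trans ?_ h1
    refine Finset.sum_congr rfl fun k _ => ?_
    rw [map_sum]
    refine Finset.sum_congr rfl fun w _ => ?_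
    rw [map_smul, hmul, hw, ← hΛ₁, hmul, hmul, hw, LinearEquiv.apply_symm_apply]
  obtain ⟨hRF1, -, hperf1⟩ := rfe (PowerSeries K) W T.R κ' T.w Λ₁
    (fun k => Φ (x' k)) (fun k => Φ (y' k)) hs1 he1'
  obtain ⟨N', hN'⟩ := hperf1 Λ₀
  have hNN : N * N' = 1 := by
    rw [← sub_eq_zero]
    apply hnd0
    intro a
    rw [sub_mul, map_sub, one_mul, mul_assoc, ← hN, ← hN', sub_self]
  -- the sequence `ν`
  have hmulN : ∀ g : ℕ → B, N * T.of g = T.of (fun n => ∑ q ∈ antidiagonal n, T.sq N q.1 * g q.2) := by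
    intro g
    conv_lhs => rw [← T.of_sq N]
    exact htm (T.sq N) g
  have hcen : ∀ n a, T.sq N n * a = a * T.sq N n := by
    intro n a
    have h1 := hNc (T.of (cst a))
    rw [← T.of_sq N, htd, htc] at h1
    exact congrFun (of_inj T h1) n
  have hcst : ∀ a, act (Ps P) (cst a) = fun n => P n a := by
    intro a
    funext n
    rw [act_Ps, Finset.sum_eq_single (n, 0)]
    · rfl
    · rintro ⟨b, c⟩ h hne
      rcases c with _ | c
      · rw [Finset.HasAntidiagonal.mem_antidiagonal] at h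
        simp only [add_zero] at h
        exact absurd (by rw [h]) hne
      · simp [cst]
    · intro h
      exact absurd (by rw [Finset.HasAntidiagonal.mem_antidiagonal]; simp) h
  have hthird : ∀ n a, ∑ p ∈ antidiagonal n, lamK (T.sq N p.1 * P p.2 a) =
      PowerSeries.coeff n (Λ (D.of (cst a))) := by
    intro n a
    rw [← hΛ₁, hN, hof, hcst, hmulN, hΛ₀, map_sum]
  refine ⟨T.sq N, ?_, hcen, hthird, ?_⟩
  · have hnd := (rfe K V B κ β lamK x y hrf.sym hrf.e1).2.1
    rw [← sub_eq_zero]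
    apply hnd
    intro a
    have h1 := hthird 0 a
    rw [PowerSeries.coeff_zero_eq_constantCoeff_apply, hc] at h1
    simp only [Finset.Nat.antidiagonal_zero, Finset.sum_singleton] at h1
    rw [h0] at h1
    rw [sub_mul, map_sub, one_mul, sub_eq_zero]
    exact h1
  · intro w M
    have h1 := (rtc (PowerSeries K) W T.R (κ × Fin (orderOf z)) κ' T.w Λ₀ _ _ hRF0).2 Λ₁ _ _ N N'
      hRF1 (fun b => hNc b) hNN hN (T.w w)
      (fun v => by rw [← map_mul, ← map_mul, mul_comm])
    have h2 : rt (fun k => Φ (x' k)) (fun k => Φ (y' k)) (T.w w) = Φ (rt x' y' (D.w w)) := by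
      unfold rt
      rw [map_sum]
      refine Finset.sum_congr rfl fun k _ => ?_
      rw [hmul, hmul, hw]
    have h3 : rt (fun k => T.of (cst (X k))) (fun k => T.of (cst (Y k))) (T.w w) =
        T.of (cst ((orderOf z : K) • rt x y (β w))) := by
      unfold rt
      have h4 : ∀ k, T.of (cst (X k)) * T.w w * T.of (cst (Y k)) =
          T.of (cst (x k.1 * β w * y k.1)) := by
        intro k
        rw [hTw, htd, htd]
        congr 1
        funext n
        rw [cst, cst]
        split_ifs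
        · show X k * aw β W w * Y k = _
          rw [hX, hY]
          show x k.1 * β (z ^ (k.2 : ℕ)) * β w * (β (z ^ (k.2 : ℕ))⁻¹ * y k.1) = _
          have h5 : β (z ^ (k.2 : ℕ)) * β w * β (z ^ (k.2 : ℕ))⁻¹ = β w := by
            rw [← map_mul, ← map_mul]
            congr 1
            rw [mul_comm (z ^ (k.2 : ℕ)) (w : V), mul_assoc, mul_inv_cancel, mul_one]
          rw [← mul_assoc, mul_assoc (x k.1), mul_assoc (x k.1), h5]
        · rw [zero_mul, zero_mul]
      rw [Finset.sum_congr rfl fun k _ => h4 k, ← of_sum T Finset.univ]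
      congr 1
      funext n
      rw [cst]
      split_ifs with hn
      · subst hn
        show ∑ k : κ × Fin (orderOf z), x k.1 * β w * y k.1 = _
        rw [Fintype.sum_prod_type, Finset.smul_sum]
        refine Finset.sum_congr rfl fun k _ => ?_
        show ∑ _ : Fin (orderOf z), x k * β w * y k = _
        rw [Finset.sum_const, Finset.card_univ, Fintype.card_fin, ← Nat.cast_smul_eq_nsmul K]
      · refine Finset.sum_eq_zero fun k _ => ?_
        rw [cst, if_neg hn]
    rw [h2, h3] at h1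
    rw [← D.of_sq (rt x' y' (D.w w)), hof, hmulN] at h1
    have h6 := congrFun (of_inj T h1) M
    have h7 : ∀ p : ℕ × ℕ, T.sq N p.1 * act (Ps P) (D.sq (rt x' y' (D.w w))) p.2 =
        ∑ q ∈ antidiagonal p.2, T.sq N p.1 * P q.1 (D.sq (rt x' y' (D.w w)) q.2) := by
      intro p
      rw [act_Ps, Finset.mul_sum]
    rw [← Finset.sum_congr rfl fun p _ => h7 p]
    exact h6

end Pool.Agent.PSS.H32
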