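import Pool.Agent.PSS.StmtsS1d

/-!
Squad PSS, block S1, row CRR (helper32), part A: the trivial deformation, conjugation by the
trivialisation.
-/

set_option autoImplicit false

open scoped BigOperators TensorProduct

noncomputable section

namespace Pool.Agent.PSS.H32

open Pool.Agent.PFD.D2 (Cdv FibG)
open Pool.Agent.PFD.D2b (FrR)
open Finset
open Pool.Agent.PSS
open Pool.Agent.PSS.Dm (cst)

/-! ### Sums over antidiagonals -/

theorem ad_a {M : Type} [AddCommMonoid M] (n : ℕ) (S : ℕ → ℕ → ℕ → M) :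
    ∑ p ∈ antidiagonal n, ∑ q ∈ antidiagonal p.1, S q.1 q.2 p.2 =
      ∑ p ∈ antidiagonal n, ∑ q ∈ antidiagonal p.2, S q.1 p.1 q.2 := by
  have e1 : ∑ p ∈ antidiagonal n, ∑ q ∈ antidiagonal p.1, S q.1 q.2 p.2 =
      ∑ x ∈ (antidiagonal n).sigma (fun p => antidiagonal p.1), S x.2.1 x.2.2 x.1.2 := by
    rw [Finset.sum_sigma]
  have e2 : ∑ p ∈ antidiagonal n, ∑ q ∈ antidiagonal p.2, S q.1 p.1 q.2 =
      ∑ x ∈ (antidiagonal n).sigma (fun p => antidiagonal p.2), S x.2.1 x.1.1 x.2.2 := by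
    rw [Finset.sum_sigma]
  rw [e1, e2]
  refine Finset.sum_nbij'
    (i := fun x => ⟨(x.2.2, x.2.1 + x.1.2), (x.2.1, x.1.2)⟩)
    (j := fun x => ⟨(x.2.1 + x.1.1, x.2.2), (x.2.1, x.1.1)⟩) ?_ ?_ ?_ ?_ ?_
  · rintro ⟨⟨a, b⟩, ⟨c, d⟩⟩ h
    simp only [mem_sigma, Finset.HasAntidiagonal.mem_antidiagonal] at h ⊢
    refine ⟨?_, trivial⟩
    omega
  · rintro ⟨⟨a, b⟩, ⟨c, d⟩⟩ h
    simp only [mem_sigma, Finset.HasAntidiagonal.mem_antidiagonal] at h ⊢
    refine ⟨?_, trivial⟩
    omega
  · rintro ⟨⟨a, b⟩, ⟨c, d⟩⟩ h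
    simp only [mem_sigma, Finset.HasAntidiagonal.mem_antidiagonal] at h
    obtain ⟨h1, h2⟩ := h
    subst h2
    rfl
  · rintro ⟨⟨a, b⟩, ⟨c, d⟩⟩ h
    simp only [mem_sigma, Finset.HasAntidiagonal.mem_antidiagonal] at h
    obtain ⟨h1, h2⟩ := h
    subst h2
    rfl
  · rintro ⟨⟨a, b⟩, ⟨c, d⟩⟩ h
    rfl

theorem ad_b {M : Type} [AddCommMonoid M] (n : ℕ) (S : ℕ → ℕ → ℕ → M) :
    ∑ p ∈ antidiagonal n, ∑ q ∈ antidiagonal p.2, S p.1 q.1 q.2 =
      ∑ p ∈ antidiagonal n, ∑ q ∈ antidiagonal p.2, S q.1 q.2 p.1 := by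
  have e1 : ∑ p ∈ antidiagonal n, ∑ q ∈ antidiagonal p.2, S p.1 q.1 q.2 =
      ∑ x ∈ (antidiagonal n).sigma (fun p => antidiagonal p.2), S x.1.1 x.2.1 x.2.2 := by
    rw [Finset.sum_sigma]
  have e2 : ∑ p ∈ antidiagonal n, ∑ q ∈ antidiagonal p.2, S q.1 q.2 p.1 =
      ∑ x ∈ (antidiagonal n).sigma (fun p => antidiagonal p.2), S x.2.1 x.2.2 x.1.1 := by
    rw [Finset.sum_sigma]
  rw [e1, e2]
  refine Finset.sum_nbij'
    (i := fun x => ⟨(x.2.2, x.1.1 + x.2.1), (x.1.1, x.2.1)⟩)
    (j := fun x => ⟨(x.2.1, x.2.2 + x.1.1), (x.2.2, x.1.1)⟩) ?_ ?_ ?_ ?_ ?_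
  · rintro ⟨⟨a, b⟩, ⟨c, d⟩⟩ h
    simp only [mem_sigma, Finset.HasAntidiagonal.mem_antidiagonal] at h ⊢
    refine ⟨?_, trivial⟩
    omega
  · rintro ⟨⟨a, b⟩, ⟨c, d⟩⟩ h
    simp only [mem_sigma, Finset.HasAntidiagonal.mem_antidiagonal] at h ⊢
    refine ⟨?_, trivial⟩
    omega
  · rintro ⟨⟨a, b⟩, ⟨c, d⟩⟩ h
    simp only [mem_sigma, Finset.HasAntidiagonal.mem_antidiagonal] at h
    obtain ⟨h1, h2⟩ := h
    subst h2
    rfl
  · rintro ⟨⟨a, b⟩, ⟨c, d⟩⟩ h
    simp only [mem_sigma, Finset.HasAntidiagonal.mem_antidiagonal] at h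
    obtain ⟨h1, h2⟩ := h
    subst h2
    rfl
  · rintro ⟨⟨a, b⟩, ⟨c, d⟩⟩ h
    rfl

/-! ### The trivial deformation -/

section triv

variable {K B W : Type} [CommRing K] [Ring B] [Algebra K B] [Group W]

/-- the structure constants of the trivial deformation -/
def tm (K B : Type) [CommRing K] [Ring B] [Algebra K B] (n : ℕ) : B →ₗ[K] B →ₗ[K] B :=
  if n = 0 then LinearMap.mul K B else 0

theorem tm_zero (x y : B) : tm K B 0 x y = x * y := by
  rw [tm, if_pos rfl, LinearMap.mul_apply']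

theorem tm_succ (n : ℕ) (x y : B) : tm K B (n + 1) x y = 0 := by
  rw [tm, if_neg (Nat.succ_ne_zero n), LinearMap.zero_apply, LinearMap.zero_apply]

/-- the trivial deformation -/
def triv (K : Type) {B W : Type} [CommRing K] [Ring B] [Algebra K B] [Group W] (om : W →* B) :
    Dm K om where
  m := tm K B
  m0 := tm_zero
  ass := by
    intro n x y z
    refine Finset.sum_congr rfl ?_
    rintro ⟨a, b⟩ -
    rcases a with _ | a
    · rcases b with _ | b
      · simp only [tm_zero, mul_assoc]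
      · simp only [tm_zero, tm_succ, zero_mul, mul_zero]
    · rcases b with _ | b
      · simp only [tm_zero, tm_succ]
      · simp only [tm_succ]
  wl := by
    intro n w x y
    rcases n with _ | n
    · simp only [tm_zero, mul_assoc]
    · simp only [tm_succ, mul_zero]
  wm := by
    intro n w x y
    rcases n with _ | n
    · simp only [tm_zero, mul_assoc]
    · simp only [tm_succ]
  wr := by
    intro n w x y
    rcases n with _ | n
    · simp only [tm_zero, mul_assoc]
    · simp only [tm_succ, zero_mul]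
  n1 := fun n x => tm_succ n 1 x
  n2 := fun n x => tm_succ n x 1

theorem triv_mul (om : W →* B) (f g : ℕ → B) (n : ℕ) :
    (triv K om).mul f g n = ∑ q ∈ antidiagonal n, f q.1 * g q.2 := by
  rw [Dm.mul, Finset.sum_eq_single (0, n)]
  · exact Finset.sum_congr rfl fun q _ => tm_zero _ _
  · rintro ⟨a, b⟩ h hne
    rcases a with _ | a
    · rw [Finset.HasAntidiagonal.mem_antidiagonal] at h
      simp only [zero_add] at h
      exact absurd (by rw [h]) hne
    · exact Finset.sum_eq_zero fun q _ => tm_succ a _ _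
  · intro h
    exact absurd (by rw [Finset.HasAntidiagonal.mem_antidiagonal]; simp) h

theorem triv_lft (om : W →* B) (f : ℕ → B) (n : ℕ) (x : B) :
    (PowerSeries.coeff n ((triv K om).lft f)) x = f n * x := by
  rw [Dm.lft_apply, Finset.sum_eq_single (0, n)]
  · exact tm_zero _ _
  · rintro ⟨a, b⟩ h hne
    rcases a with _ | a
    · rw [Finset.HasAntidiagonal.mem_antidiagonal] at h
      simp only [zero_add] at h
      exact absurd (by rw [h]) hne
    · exact tm_succ a _ _
  · intro h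
    exact absurd (by rw [Finset.HasAntidiagonal.mem_antidiagonal]; simp) h

theorem triv_of_mul (om : W →* B) (f g : ℕ → B) :
    (triv K om).of f * (triv K om).of g =
      (triv K om).of (fun n => ∑ q ∈ antidiagonal n, f q.1 * g q.2) := by
  rw [← Dm.of_mul]
  congr 1
  funext n
  exact triv_mul om f g n

theorem triv_cst_mul (om : W →* B) (a : B) (g : ℕ → B) :
    (triv K om).of (cst a) * (triv K om).of g = (triv K om).of (fun n => a * g n) := by
  rw [triv_of_mul]
  congr 1
  funext n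
  rw [Finset.sum_eq_single (0, n)]
  · rfl
  · rintro ⟨b, c⟩ h hne
    rcases b with _ | b
    · rw [Finset.HasAntidiagonal.mem_antidiagonal] at h
      simp only [zero_add] at h
      exact absurd (by rw [h]) hne
    · simp [cst]
  · intro h
    exact absurd (by rw [Finset.HasAntidiagonal.mem_antidiagonal]; simp) h

theorem triv_mul_cst (om : W →* B) (a : B) (g : ℕ → B) :
    (triv K om).of g * (triv K om).of (cst a) = (triv K om).of (fun n => g n * a) := by
  rw [triv_of_mul]
  congr 1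
  funext n
  rw [Finset.sum_eq_single (n, 0)]
  · rfl
  · rintro ⟨b, c⟩ h hne
    rcases c with _ | c
    · rw [Finset.HasAntidiagonal.mem_antidiagonal] at h
      simp only [add_zero] at h
      exact absurd (by rw [h]) hne
    · simp [cst]
  · intro h
    exact absurd (by rw [Finset.HasAntidiagonal.mem_antidiagonal]; simp) h

end triv

section gen

variable {K B W : Type} [CommRing K] [Ring B] [Algebra K B] [Group W] {om : W →* B} (D : Dm K om)

theorem of_inj {f g : ℕ → B} (h : D.of f = D.of g) : f = g := by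
  rw [← D.sq_of f, h, D.sq_of]

theorem of_sum {ι : Type} (s : Finset ι) (f : ι → ℕ → B) :
    D.of (fun n => ∑ i ∈ s, f i n) = ∑ i ∈ s, D.of (f i) := by
  classical
  induction s using Finset.induction_on with
  | empty =>
    rw [Finset.sum_empty]
    simp only [Finset.sum_empty]
    exact D.of_zero
  | insert i s hi ih =>
    rw [Finset.sum_insert hi, ← ih, ← D.of_add]
    congr 1
    funext n
    rw [Finset.sum_insert hi]
    rfl

theorem smul_cst (c : PowerSeries K) (b : B) :
    c • D.of (cst b) = D.of (fun n => PowerSeries.coeff n c • b) := by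
  rw [← D.of_smul]
  congr 1
  funext n
  rw [Dm.smulq, Finset.sum_eq_single (n, 0)]
  · rfl
  · rintro ⟨a, e⟩ h hne
    rcases e with _ | e
    · rw [Finset.HasAntidiagonal.mem_antidiagonal] at h
      simp only [add_zero] at h
      exact absurd (by rw [h]) hne
    · simp [cst]
  · intro h
    exact absurd (by rw [Finset.HasAntidiagonal.mem_antidiagonal]; simp) h

/-- the action of a power series of linear maps on a sequence -/
def act (U : PowerSeries (Module.End K B)) (f : ℕ → B) (n : ℕ) : B :=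
  ∑ p ∈ antidiagonal n, (PowerSeries.coeff p.1 U) (f p.2)

theorem act_eq (U : PowerSeries (Module.End K B)) (f : ℕ → B) (n : ℕ) :
    act U f n = (PowerSeries.coeff n (U * D.lft f)) 1 := by
  rw [PowerSeries.coeff_mul, LinearMap.sum_apply, act]
  refine Finset.sum_congr rfl fun p _ => ?_
  rw [Module.End.mul_apply, D.lft_one]

theorem act_act (U V : PowerSeries (Module.End K B)) (f : ℕ → B) :
    act U (act V f) = act (U * V) f := by
  funext n
  rw [act_eq (triv K (1 : Unit →* B)) (U * V), mul_assoc, PowerSeries.coeff_mul,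
    LinearMap.sum_apply, act]
  refine Finset.sum_congr rfl fun p _ => ?_
  rw [Module.End.mul_apply, ← act_eq]

theorem act_one (f : ℕ → B) : act (1 : PowerSeries (Module.End K B)) f = f := by
  funext n
  rw [act_eq (triv K (1 : Unit →* B)), one_mul, Dm.lft_one]

end gen

end Pool.Agent.PSS.H32
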