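import Pool.Agent.PSS.StmtsS5
import Pool.Agent.Helper77_PSS.NRF
import Pool.Agent.Helper80_PSS.ZRT

/-!
# Squad PSS, row RBK (helper32): the relative trace preserves the Brauer kernel of `V`
-/

set_option autoImplicit false

open scoped BigOperators TensorProduct

noncomputable section

namespace Pool.Agent.PSS.S5.H32

open Pool.Agent.PFC (tw IsTv)
open Pool.Agent.PFD.D2b (FrR)

/-- RBK -/
theorem rbk (rtn : RtnStmt) : RbkStmt := by
  intro ℓ _ F V E A K _ _ _ _ _ _ _ _ φ α lam x y hV hPer hRF z hz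
  obtain ⟨Ω, i1, i2, b, c, hf, -⟩ := id hPer
  obtain ⟨B, i3, i4, ⟨N⟩⟩ := nwe α hf ⊤
  have hzF : z ∈ FxR (cw F α) ⊤ := BKR_le_FxR hz
  have h1 := rtn ℓ F V E A B K φ α lam x y ⊤ N hV (fun _ _ _ => Subgroup.mem_top _) hPer hRF z
    hzF
  rw [H77N.BKR_cw] at hz ⊢
  have h2 : N.β 1 z = 0 := (N.ker 1 z (BKR_le_FxR hz)).2 hz
  have h3 : N.β 1 (∑ k, x k * z * y k) = 0 := by
    have h4 : Submodule.span F {w : B | ∃ s t : B, w = s * N.β 1 z * t} ≤ ⊥ := by
      refine Submodule.span_le.2 ?_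
      rintro w ⟨s, t, rfl⟩
      rw [h2, mul_zero, zero_mul]
      exact Submodule.zero_mem _
    exact (Submodule.mem_bot F).1 (h4 h1)
  have h5 : ∑ k, x k * z * y k ∈ FxR (bw F α) (twW ⊤ (1 : MulAut (⊤ : Subgroup V))) := by
    rw [mem_tw]
    intro w
    exact S0.H80.zrt F V A K α lam x y hRF z hzF _
  exact (N.ker 1 _ h5).1 h3

end Pool.Agent.PSS.S5.H32
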