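import Pool.Agent.PSS.StmtsS2

/-!
Squad PSS, block S2, rows RTW and NLT (helper32).
-/

set_option autoImplicit false

open scoped BigOperators

noncomputable section

namespace Pool.Agent.PSS.S2.H32

open Pool.Agent.PFC (tw IsTv)
open Pool.Agent.PFD.D2b (FrR)
open Pool.Agent.PSS Pool.Agent.PSS.S2

section aux

variable {V A : Type} [CommGroup V] [Fintype V] [Ring A]

/-- `α w * σ = σ` -/
theorem al_sg (α : V →* A) (w : V) : α w * sg α = sg α := by
  unfold sg
  rw [Finset.mul_sum]
  refine Fintype.sum_equiv (Equiv.mulLeft w) _ _ fun v => ?_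
  rw [Equiv.coe_mulLeft, map_mul]

/-- an element which commutes with `V` commutes with `σ` -/
theorem cv_sg (α : V →* A) {a : A} (ha : CV α a) : sg α * a = a * sg α := by
  unfold sg
  rw [Finset.sum_mul, Finset.mul_sum]
  exact Finset.sum_congr rfl fun v _ => ha v

end aux

theorem rtw (str : StrStmt) : RtwStmt := by
  intro ℓ _ F V E A K Ω _ _ _ _ _ _ _ _ _ _ φ α lam x y b c a w hpg hrf hpr ha
  have key : ∀ w : V, lam (sg α * a * rt x y (α w)) = ∑ k, lam (y k * (a * x k * sg α)) := by
    intro w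
    let f : A →ₗ[F] A := (LinearMap.mulRight F (α w)).comp (LinearMap.mulLeft F a)
    have hf : ∀ b, f b = a * b * α w := fun b => rfl
    have h1 : ∀ a' v, f (a' * α v) = f a' * α v := by
      intro a' v
      have h0 : α v * α w = α w * α v := by rw [← map_mul, ← map_mul, mul_comm v w]
      rw [hf, hf]
      simp only [mul_assoc]
      rw [h0]
    have h2 : ∀ v a', f (α v * a') = α v * f a' := by
      intro v a'
      rw [hf, hf, ← mul_assoc a, ← ha v]
      simp only [mul_assoc]
    have h3 := str ℓ F V E A K Ω φ α lam x y b c f hpg hrf hpr h1 h2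
    have h4 : lam (sg α * a * rt x y (α w)) = ∑ k, lam (y k * (sg α * f (x k))) := by
      unfold rt
      rw [Finset.mul_sum, map_sum]
      refine Finset.sum_congr rfl fun k _ => ?_
      rw [hrf.sym (y k), hf]
      simp only [mul_assoc]
    rw [h4, h3]
    refine Finset.sum_congr rfl fun k _ => ?_
    rw [hf, mul_assoc (a * x k), al_sg]
  have k1 := key 1
  rw [map_one] at k1
  exact ⟨(key w).trans k1.symm, key w⟩

theorem nlt (str : StrStmt) (nlm : NlmStmt) (rtc : RtcStmt) : NltStmt := by
  intro ℓ _ F V E A K Ω _ _ _ _ _ _ _ _ _ _ φ α lam x y b c u a hpg hrf hpr hu ha hn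
  obtain ⟨ζ, hζ⟩ : ∃ ζ : A, ζ = rt x y 1 := ⟨_, rfl⟩
  rw [← hζ] at hu
  have hzc : ∀ b, b * ζ = ζ * b := by
    rw [hζ]
    exact (rtc F V A K K α lam x y hrf).1 1 (fun v => by rw [mul_one, one_mul])
  have hzu : ζ * u = 1 := by rw [← hzc, hu]
  have huc : ∀ b, u * b = b * u := by
    intro b
    calc u * b = u * b * (ζ * u) := by rw [hzu, mul_one]
      _ = u * (b * ζ) * u := by simp only [mul_assoc]
      _ = u * (ζ * b) * u := by rw [hzc]
      _ = u * ζ * b * u := by simp only [mul_assoc]
      _ = b * u := by rw [hu, one_mul]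
  have hCV : CV α (u * a) := by
    intro v
    rw [← mul_assoc, ← huc, mul_assoc, ha v, mul_assoc]
  have hnil : IsNilpotent (u * a) := by
    have hc : Commute u a := huc a
    exact hc.isNilpotent_mul_left hn
  let f : A →ₗ[F] A := LinearMap.mulLeft F (u * a)
  have hf : ∀ b, f b = u * a * b := fun b => rfl
  have h1 : ∀ a' v, f (a' * α v) = f a' * α v := by
    intro a' v
    rw [hf, hf]
    simp only [mul_assoc]
  have h2 : ∀ v a', f (α v * a') = α v * f a' := by
    intro v a'
    rw [hf, hf, ← mul_assoc, ← hCV v, mul_assoc]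
  have h3 := str ℓ F V E A K Ω φ α lam x y b c f hpg hrf hpr h1 h2
  have h4 : lam (sg α * a) = ∑ k, lam (y k * (sg α * f (x k))) := by
    have h5 : sg α * a = (u * a) * sg α * ζ := by
      rw [← cv_sg α hCV]
      calc sg α * a = sg α * ((ζ * u) * a) := by rw [hzu, one_mul]
        _ = sg α * (ζ * (u * a)) := by rw [mul_assoc ζ]
        _ = sg α * ((u * a) * ζ) := by rw [hzc]
        _ = sg α * (u * a) * ζ := by rw [mul_assoc (sg α)]
    rw [h5, hζ]
    unfold rt
    rw [Finset.mul_sum, map_sum]
    refine Finset.sum_congr rfl fun k _ => ?_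
    rw [hrf.sym (y k), hf, ← cv_sg α hCV]
    simp only [mul_assoc, one_mul]
  rw [h4, h3]
  exact nlm F V A K α lam x y (u * a) hrf hnil

end Pool.Agent.PSS.S2.H32
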